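import Mathlib
import Pool.Agent.Y608.LFU2

/-!
Locally finite simple groups with a prescribed class of finite nonabelian simple subgroups; in
particular a universal one without finite nonabelian simple subgroups.
-/

namespace Pool.Agent.Results.MP_0b7c94_al.PrescribedSimpleSubgroups

open Y608.LFU

/-- A group is locally finite if every finitely generated subgroup of it is finite. -/
def LocallyFinite (G : Type) [Group G] : Prop := ∀ K : Subgroup G, K.FG → Finite K

/-- `F` embeds in `G`, i.e. `F` is isomorphic to a subgroup of `G`. -/
def Embeds (F G : Type) [Group F] [Group G] : Prop := ∃ f : F →* G, Function.Injective f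

/-- `T` is a finite nonabelian simple group. -/
def NonabSimple (T : Type) [Group T] : Prop :=
  Finite T ∧ IsSimpleGroup T ∧ ∃ a b : T, a * b ≠ b * a

theorem cyclic_of_comm (K : Type) [Group K] [Finite K] [hs : IsSimpleGroup K]
    (hc : ∀ a b : K, a * b = b * a) : IsCyclic K ∧ (Nat.card K).Prime := by
  letI : CommGroup K := { (inferInstance : Group K) with mul_comm := hc }
  haveI : IsSimpleGroup K := hs
  have hp : (Nat.card K).Prime := IsSimpleGroup.prime_card
  haveI : Fact (Nat.card K).Prime := ⟨hp⟩
  exact ⟨isCyclic_of_prime_card rfl, hp⟩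

theorem comm_of_cyclic (K : Type) [Group K] (h : IsCyclic K) (a b : K) : a * b = b * a := by
  letI := h.commGroup
  exact mul_comm a b

theorem inCls_iff (S : ∀ (T : Type) [Group T], Prop) (F : Type) [Group F] :
    InCls S F ↔ ∀ (T : Type) [Group T], NonabSimple T → Embeds T F → S T := by
  constructor
  · intro h T _ hT ⟨f, hf⟩
    obtain ⟨_, _, a, b, hab⟩ := hT
    rcases h T f hf with h' | h'
    · exact absurd (h' a b) hab
    · exact h'
  · intro h T _ _ _ f hf
    by_cases hc : ∀ a b : T, a * b = b * a
    · exact Or.inl hc
    · push Not at hc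
      exact Or.inr (h T ⟨inferInstance, inferInstance, hc⟩ ⟨f, hf⟩)

theorem Embeds.trans {F G H : Type} [Group F] [Group G] [Group H] (h : Embeds F G)
    (h' : Embeds G H) : Embeds F H := by
  obtain ⟨f, hf⟩ := h
  obtain ⟨g, hg⟩ := h'
  exact ⟨g.comp f, hg.comp hf⟩

theorem general (S : ∀ (T : Type) [Group T], Prop) :
    ∃ (G : Type) (_ : Group G), Infinite G ∧ Countable G ∧ LocallyFinite G ∧ IsSimpleGroup G ∧
      ∀ (F : Type) [Group F] [Finite F],
        Embeds F G ↔ ∀ (T : Type) [Group T], NonabSimple T → Embeds T F → S T := by
  obtain ⟨G, _, h1, h2, h3, h4, h5, h6⟩ := main_cls S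
  refine ⟨G, inferInstance, h1, h2, h4, h3, ?_⟩
  intro F _ _
  rw [← inCls_iff]
  constructor
  · rintro ⟨f, hf⟩
    exact h5.of_injective f hf
  · intro h
    exact h6 F h

theorem card_lt_of_lt {G : Type} [Group G] {K L : Subgroup G} (h : K < L) [Finite L] :
    Nat.card K < Nat.card L := by
  by_contra hno
  push Not at hno
  exact h.ne (Subgroup.eq_of_le_of_card_ge h.le hno)

/-- **Prescribed finite simple subgroups of locally finite simple groups.**

(1) There is a countable, infinite, locally finite, simple group in which every finite simple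
subgroup is cyclic of prime order, and in which EVERY finite group whose simple subgroups are
cyclic embeds.

(2) More generally, for every class `S` of groups there is a countable, infinite, locally finite,
simple group `G` such that a finite group `F` embeds in `G` if and only if all finite nonabelian
simple groups which embed in `F` belong to `S`.

(3) A class `S` of finite nonabelian simple groups is the class of the finite nonabelian simple
groups which embed in some infinite locally finite simple group if and only if it is closed under
embedded nonabelian simple groups.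

(4) Every finite group `F` embeds in a countable, infinite, locally finite, simple group `G` such
that all finite nonabelian simple subgroups of `G` embed in `F`; there is no infinite tower of
finite nonabelian simple subgroups of `G`. -/
theorem result :
    (∃ (G : Type) (_ : Group G), Infinite G ∧ Countable G ∧ LocallyFinite G ∧ IsSimpleGroup G ∧
      (∀ K : Subgroup G, Finite K → IsSimpleGroup K → IsCyclic K ∧ (Nat.card K).Prime) ∧
      ∀ (F : Type) [Group F] [Finite F],
        Embeds F G ↔ ∀ K : Subgroup F, IsSimpleGroup K → IsCyclic K) ∧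
    (∀ S : ∀ (T : Type) [Group T], Prop,
      ∃ (G : Type) (_ : Group G), Infinite G ∧ Countable G ∧ LocallyFinite G ∧ IsSimpleGroup G ∧
        ∀ (F : Type) [Group F] [Finite F],
          Embeds F G ↔ ∀ (T : Type) [Group T], NonabSimple T → Embeds T F → S T) ∧
    (∀ S : ∀ (T : Type) [Group T], Prop,
      (∃ (G : Type) (_ : Group G), Infinite G ∧ LocallyFinite G ∧ IsSimpleGroup G ∧
        ∀ (T : Type) [Group T], NonabSimple T → (Embeds T G ↔ S T)) ↔
      ∀ (T U : Type) [Group T] [Group U], NonabSimple T → NonabSimple U → Embeds T U →
        S U → S T) ∧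
    (∀ (F : Type) [Group F] [Finite F],
      ∃ (G : Type) (_ : Group G), Infinite G ∧ Countable G ∧ LocallyFinite G ∧ IsSimpleGroup G ∧
        Embeds F G ∧ (∀ (T : Type) [Group T], NonabSimple T → Embeds T G → Embeds T F) ∧
        ¬ ∃ H : ℕ → Subgroup G, StrictMono H ∧ ∀ n, NonabSimple (H n)) := by
  refine ⟨?_, general, ?_, ?_⟩
  · obtain ⟨G, _, h1, h2, h3, h4, h5⟩ := general (fun _ _ => False)
    have hG : ∀ (T : Type) [Group T] [Finite T] [IsSimpleGroup T], Embeds T G →
        ∀ a b : T, a * b = b * a := by
      intro T _ _ _ hT
      by_contra hc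
      push Not at hc
      exact (h5 T).1 hT T ⟨inferInstance, inferInstance, hc⟩ ⟨MonoidHom.id T, fun _ _ h => h⟩
    refine ⟨G, inferInstance, h1, h2, h3, h4, ?_, ?_⟩
    · intro K hK hs
      haveI := hK
      haveI := hs
      exact cyclic_of_comm K (hG K ⟨K.subtype, Subtype.val_injective⟩)
    · intro F _ _
      constructor
      · intro hF K hs
        haveI := hs
        exact (cyclic_of_comm K
          (hG K (Embeds.trans ⟨K.subtype, Subtype.val_injective⟩ hF))).1
      · intro h
        rw [h5 F]
        rintro T _ ⟨hT1, hT2, a, b, hab⟩ ⟨f, hf⟩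
        haveI := hT1
        haveI := hT2
        let e : T ≃* f.range := MonoidHom.ofInjective hf
        haveI : IsSimpleGroup f.range := (MulEquiv.isSimpleGroup_congr e).1 hT2
        have h6 := comm_of_cyclic f.range (h f.range inferInstance) (e a) (e b)
        rw [← map_mul, ← map_mul] at h6
        exact hab (e.injective h6)
  · intro S
    constructor
    · rintro ⟨G, _, h1, h3, h4, h5⟩ T U _ _ hT hU hTU hSU
      exact (h5 T hT).1 (hTU.trans ((h5 U hU).2 hSU))
    · intro hS
      obtain ⟨G, _, h1, h2, h3, h4, h5⟩ := general S
      refine ⟨G, inferInstance, h1, h3, h4, ?_⟩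
      intro T _ hT
      haveI := hT.1
      rw [h5 T]
      constructor
      · intro h
        exact h T hT ⟨MonoidHom.id T, fun _ _ h => h⟩
      · intro hST U _ hU hUT
        exact hS U T hU hT hUT hST
  · intro F _ _
    obtain ⟨G, _, h1, h2, h3, h4, h5⟩ := general (fun T _ => Embeds T F)
    have h6 : ∀ (T : Type) [Group T], NonabSimple T → Embeds T G → Embeds T F := by
      intro T _ hT hTG
      haveI := hT.1
      exact (h5 T).1 hTG T hT ⟨MonoidHom.id T, fun _ _ h => h⟩
    refine ⟨G, inferInstance, h1, h2, h3, h4, (h5 F).2 (fun T _ _ h => h), h6, ?_⟩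
    rintro ⟨H, hmono, hH⟩
    have hcard : ∀ n, n ≤ Nat.card (H n) := by
      intro n
      induction n with
      | zero => exact Nat.zero_le _
      | succ n ih =>
        haveI := (hH (n + 1)).1
        have := card_lt_of_lt (hmono (show n < n + 1 by omega))
        omega
    have h7 := hcard (Nat.card F + 1)
    obtain ⟨f, hf⟩ := h6 (H (Nat.card F + 1)) (hH _) ⟨(H _).subtype, Subtype.val_injective⟩
    have h8 := Nat.card_le_card_of_injective f hf
    omega

end Pool.Agent.Results.MP_0b7c94_al.PrescribedSimpleSubgroups
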